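import Pool.Agent.Helper86.TH.Stmts

/-! # Row EH: complete and elementary functions at minus an alphabet -/

set_option linter.unusedSectionVars false

namespace TH78

open TH MvPolynomial Finset

noncomputable section

variable {K : Type*} [Field K] [CharZero K]

theorem evz_X (m j : ℕ) :
    evz K m (X j) = -∑ i : Fin m, (X i : MvPolynomial (Fin m) K) ^ (j + 1) := by
  rw [evz, aeval_X]

theorem evz_hh (m d : ℕ) :
    evz K m (hh K d) = hc (fun j => ∑ i : Fin m, -((X i : MvPolynomial (Fin m) K) ^ (j + 1))) d := by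
  have h := hc_map (evz K m : Sy K →+* MvPolynomial (Fin m) K) (fun j => (X j : Sy K)) d
  rw [hh]
  refine h.trans ?_
  congr 1
  funext j
  rw [Finset.sum_neg_distrib]
  exact evz_X m j

theorem evz_ee (m d : ℕ) :
    evz K m (ee K d) = hc (fun j => ∑ i : Fin m, (-(X i : MvPolynomial (Fin m) K)) ^ (j + 1)) d := by
  have h := hc_map (evz K m : Sy K →+* MvPolynomial (Fin m) K)
    (fun j => (-1) ^ j * (X j : Sy K)) d
  rw [ee]
  refine h.trans ?_
  congr 1
  funext j
  change evz K m ((-1) ^ j * (X j : Sy K)) = _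
  rw [map_mul, evz_X, map_pow, map_neg, map_one, mul_neg, Finset.mul_sum, ← Finset.sum_neg_distrib]
  refine Finset.sum_congr rfl fun i _ => ?_
  rw [neg_pow (X i : MvPolynomial (Fin m) K) (j + 1), pow_succ (-1 : MvPolynomial (Fin m) K) j]
  ring

theorem coeff_prod_lin {R ι : Type*} [CommRing R] (s : Finset ι) (x : ι → R) (d : ℕ) :
    PowerSeries.coeff d (∏ i ∈ s, (1 - PowerSeries.C (x i) * PowerSeries.X))
      = (-1) ^ d * ∑ S ∈ powersetCard d s, ∏ i ∈ S, x i := by
  classical
  have h1 : ∏ i ∈ s, (1 - PowerSeries.C (x i) * PowerSeries.X)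
      = ∏ i ∈ s, (1 + PowerSeries.C (-(x i)) * (PowerSeries.X : PowerSeries R)) := by
    refine Finset.prod_congr rfl fun i _ => ?_
    rw [map_neg, neg_mul, sub_eq_add_neg]
  rw [h1, Finset.prod_one_add, map_sum]
  have h2 : ∀ S ∈ s.powerset, PowerSeries.coeff d (∏ i ∈ S, PowerSeries.C (-(x i))
      * (PowerSeries.X : PowerSeries R)) = if S.card = d then (-1) ^ d * ∏ i ∈ S, x i else 0 := by
    intro S _
    rw [Finset.prod_mul_distrib, Finset.prod_const, ← map_prod, PowerSeries.coeff_C_mul,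
      PowerSeries.coeff_X_pow]
    by_cases h : S.card = d
    · rw [if_pos h, if_pos h.symm, mul_one, ← h]
      rw [Finset.prod_neg]
    · rw [if_neg h, if_neg (fun h' => h h'.symm), mul_zero]
  rw [Finset.sum_congr rfl h2, ← Finset.sum_filter, Finset.mul_sum, ← Finset.powersetCard_eq_filter]

theorem sum_piAnti {R : Type*} [CommRing R] (m d : ℕ) (f : (Fin m → ℕ) → R) :
    ∑ l ∈ finsuppAntidiag (univ : Finset (Fin m)) d, f l
      = ∑ α ∈ Finset.piAntidiag (univ : Finset (Fin m)) d, f α := by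
  refine Finset.sum_bij' (fun l _ => ⇑l) (fun α _ => Finsupp.equivFunOnFinite.symm α) ?_ ?_ ?_ ?_ ?_
  · intro l hl
    rw [mem_finsuppAntidiag] at hl
    rw [mem_piAntidiag]
    exact ⟨hl.1, fun i _ => mem_univ i⟩
  · intro α hα
    rw [mem_piAntidiag] at hα
    rw [mem_finsuppAntidiag]
    exact ⟨hα.1, fun i _ => mem_univ i⟩
  · intro l _
    ext i
    simp
  · intro α _
    funext i
    simp
  · intro l _
    rfl

theorem st_EH (K : Type*) [Field K] [CharZero K] : ST_EH K := by
  intro m d
  constructor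
  · rw [evz_hh]
    have h1 := congrArg (PowerSeries.coeff d)
      (hcS_sum (univ : Finset (Fin m)) (fun i j => -((X i : MvPolynomial (Fin m) K) ^ (j + 1))))
    rw [hcS, PowerSeries.coeff_mk] at h1
    rw [h1]
    simp only [hcS_neg_geom]
    rw [coeff_prod_lin]
  · rw [evz_ee]
    have h1 := congrArg (PowerSeries.coeff d)
      (hcS_sum (univ : Finset (Fin m)) (fun i j => (-(X i : MvPolynomial (Fin m) K)) ^ (j + 1)))
    rw [hcS, PowerSeries.coeff_mk] at h1
    rw [h1, PowerSeries.coeff_prod,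
      sum_piAnti m d (fun l => ∏ i, PowerSeries.coeff (l i)
        (hcS (fun j => (-(X i : MvPolynomial (Fin m) K)) ^ (j + 1)))), Finset.mul_sum]
    refine Finset.sum_congr rfl fun α hα => ?_
    rw [mem_piAntidiag] at hα
    have h2 : ∀ i : Fin m, PowerSeries.coeff (α i)
        (hcS (fun j => (-(X i : MvPolynomial (Fin m) K)) ^ (j + 1)))
        = (-1) ^ (α i) * (X i : MvPolynomial (Fin m) K) ^ (α i) := by
      intro i
      rw [hcS, PowerSeries.coeff_mk, hc_geom, neg_pow]
    simp only [h2]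
    rw [Finset.prod_mul_distrib, Finset.prod_pow_eq_pow_sum, hα.1]

end

end TH78
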