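import Pool.Agent.Helper86.TH.Stmts

/-! # Row EZ: scalar products with words in the vertex operators as constant terms -/

set_option linter.unusedSectionVars false

namespace TH78

open TH MvPolynomial Finset

noncomputable section

variable {K : Type*} [Field K] [CharZero K]

/-- the functional `z^alpha ↦ ct (L - alpha)` as a linear map -/
def ctLin (q t : K) (m : ℕ) (L : Fin m → ℤ) : MvPolynomial (Fin m) K →ₗ[K] K :=
  (MvPolynomial.basisMonomials (Fin m) K).constr K
    (fun α => ct q t m (fun i => L i - (α i : ℤ)))

theorem ctLin_monomial (q t : K) (m : ℕ) (L : Fin m → ℤ) (α : Fin m →₀ ℕ) :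
    ctLin q t m L (monomial α 1) = ct q t m (fun i => L i - (α i : ℤ)) := by
  have h : (monomial α 1 : MvPolynomial (Fin m) K) = MvPolynomial.basisMonomials (Fin m) K α := by
    simp
  rw [h, ctLin, Module.Basis.constr_basis]

theorem ctL_eq (q t : K) (m : ℕ) (L : Fin m → ℤ) (P : MvPolynomial (Fin m) K) :
    ctL q t m L P = ctLin q t m L P := by
  conv_rhs => rw [P.as_sum, map_sum]
  rw [ctL]
  refine Finset.sum_congr rfl fun α _ => ?_
  have h : (monomial α (P.coeff α) : MvPolynomial (Fin m) K)
      = P.coeff α • monomial α (1 : K) := by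
    rw [MvPolynomial.smul_monomial, smul_eq_mul, mul_one]
  rw [h, map_smul, ctLin_monomial, smul_eq_mul]

/-- coefficients of a monomial in the first variable -/
theorem coeff_finSucc_monomial (m : ℕ) (α : Fin (m + 1) →₀ ℕ) (k : ℕ) :
    (MvPolynomial.finSuccEquiv K m (monomial α 1)).coeff k
      = if α 0 = k then monomial (Finsupp.tail α) 1 else 0 := by
  ext s
  rw [MvPolynomial.finSuccEquiv_coeff_coeff, MvPolynomial.coeff_monomial]
  by_cases h : α = Finsupp.cons k s
  · rw [if_pos h]
    subst h
    rw [if_pos (Finsupp.cons_zero k s), Finsupp.tail_cons, MvPolynomial.coeff_monomial, if_pos rfl]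
  · rw [if_neg h]
    split_ifs with h1
    · rw [MvPolynomial.coeff_monomial, if_neg]
      intro h2
      apply h
      rw [← h1, ← h2, Finsupp.cons_tail]
    · simp

/-- the recursion for the constant term functional -/
theorem ctLin_succ (q t : K) (m : ℕ) (L : Fin (m + 1) → ℤ) (P : MvPolynomial (Fin (m + 1)) K) :
    ctLin q t (m + 1) L P = if 0 ≤ L 0 then
      ∑ y ∈ range ((L 0).toNat + 1), ∑ j ∈ Finset.piAntidiag (univ : Finset (Fin m)) y,
        (∏ i, om q t (j i)) * ctLin q t m (fun i => L i.succ + (j i : ℤ))
          ((MvPolynomial.finSuccEquiv K m P).coeff ((L 0).toNat - y))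
      else 0 := by
  induction P using MvPolynomial.induction_on' with
  | monomial α a =>
    have h : (monomial α a : MvPolynomial (Fin (m + 1)) K) = a • monomial α (1 : K) := by
      rw [MvPolynomial.smul_monomial, smul_eq_mul, mul_one]
    rw [h, map_smul, ctLin_monomial, map_smul, ct]
    by_cases hL : 0 ≤ L 0
    · rw [if_pos hL]
      set l := (L 0).toNat with hl
      have hlL : (l : ℤ) = L 0 := Int.toNat_of_nonneg hL
      have hterm : ∀ (y : ℕ) (j : Fin m → ℕ), (∏ i, om q t (j i))
          * ctLin q t m (fun i => L i.succ + (j i : ℤ))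
            ((a • MvPolynomial.finSuccEquiv K m (monomial α 1)).coeff (l - y))
          = if α 0 = l - y then a * ((∏ i, om q t (j i))
            * ct q t m (fun i => L i.succ - (α i.succ : ℤ) + (j i : ℤ))) else 0 := by
        intro y j
        rw [Polynomial.coeff_smul, coeff_finSucc_monomial, map_smul]
        split_ifs with h1
        · rw [ctLin_monomial, smul_eq_mul]
          have h2 : (fun i : Fin m => L i.succ + (j i : ℤ) - ((Finsupp.tail α) i : ℤ))
              = fun i : Fin m => L i.succ - (α i.succ : ℤ) + (j i : ℤ) := by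
            funext i
            rw [Finsupp.tail_apply]
            ring
          rw [h2]
          ring
        · rw [map_zero, smul_zero, mul_zero]
      simp only [hterm]
      by_cases h1 : 0 ≤ L 0 - (α 0 : ℤ)
      · rw [if_pos h1, Finset.sum_eq_single (l - α 0)]
        · have h2 : (L 0 - (α 0 : ℤ)).toNat = l - α 0 := by omega
          rw [h2, smul_eq_mul, Finset.mul_sum]
          refine Finset.sum_congr rfl fun j _ => ?_
          rw [if_pos (by omega)]
        · intro y hy hne
          rw [mem_range] at hy
          refine Finset.sum_eq_zero fun j _ => ?_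
          rw [if_neg (by omega)]
        · intro h2
          exfalso
          apply h2
          rw [mem_range]
          omega
      · rw [if_neg h1, smul_zero]
        symm
        refine Finset.sum_eq_zero fun y hy => Finset.sum_eq_zero fun j _ => ?_
        rw [mem_range] at hy
        rw [if_neg (by omega)]
    · rw [if_neg hL, if_neg (by omega), smul_zero]
  | add P Q hP hQ =>
    rw [map_add, hP, hQ, map_add]
    split_ifs
    · rw [← Finset.sum_add_distrib]
      refine Finset.sum_congr rfl fun y _ => ?_
      rw [← Finset.sum_add_distrib]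
      refine Finset.sum_congr rfl fun j _ => ?_
      rw [Polynomial.coeff_add, map_add, mul_add]
    · rw [add_zero]

/-- the first variable of `evz (m+1)` -/
theorem finSucc_evz (m : ℕ) (G : Sy K) :
    MvPolynomial.finSuccEquiv K m (evz K (m + 1) G)
      = Polynomial.map (evz K m : Sy K →+* MvPolynomial (Fin m) K) (sgA G) := by
  have h : ((MvPolynomial.finSuccEquiv K m).toAlgHom.comp (evz K (m + 1)))
      = (Polynomial.mapAlgHom (evz K m)).comp sgA := by
    refine MvPolynomial.algHom_ext fun j => ?_
    rw [AlgHom.comp_apply, AlgHom.comp_apply, evz, sgA, aeval_X, aeval_X]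
    change (MvPolynomial.finSuccEquiv K m) (-∑ i : Fin (m + 1), X i ^ (j + 1))
      = Polynomial.mapAlgHom (evz K m) (Polynomial.C (X j) - Polynomial.X ^ (j + 1))
    rw [map_neg, map_sum, Fin.sum_univ_succ, map_sub, map_pow, map_pow,
      MvPolynomial.finSuccEquiv_X_zero, Polynomial.coe_mapAlgHom, Polynomial.map_C,
      Polynomial.map_X]
    have h1 : ((evz K m : Sy K →+* MvPolynomial (Fin m) K)) (X j)
        = -∑ i : Fin m, (X i : MvPolynomial (Fin m) K) ^ (j + 1) := by
      change evz K m (X j) = _
      rw [evz, aeval_X]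
    rw [h1, Polynomial.C_neg, map_sum]
    have h2 : ∀ i : Fin m, (MvPolynomial.finSuccEquiv K m) (X i.succ ^ (j + 1))
        = Polynomial.C ((X i : MvPolynomial (Fin m) K) ^ (j + 1)) := by
      intro i
      rw [map_pow, MvPolynomial.finSuccEquiv_X_succ, Polynomial.C_pow]
    simp only [h2]
    ring
  exact congrArg (fun g => g G) h

theorem hall_one (G : Sy K) : hall 1 G = G.coeff 0 := by
  have h : (1 : Sy K) = MvPolynomial.basisMonomials ℕ K 0 := by simp
  rw [hall, bf, h, Module.Basis.constr_basis]
  simp [wt]

theorem evz_zero (G : Sy K) : evz K 0 G = C (G.coeff 0) := by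
  have h : evz K 0 = (Algebra.ofId K (MvPolynomial (Fin 0) K)).comp
      (aeval (fun _ : ℕ => (0 : K)) : Sy K →ₐ[K] K) := by
    refine MvPolynomial.algHom_ext fun j => ?_
    rw [evz, aeval_X, AlgHom.comp_apply, aeval_X]
    simp
  rw [h, AlgHom.comp_apply]
  have h2 : aeval (fun _ : ℕ => (0 : K)) G = G.coeff 0 := by
    rw [MvPolynomial.aeval_zero']
    simp [MvPolynomial.constantCoeff_eq]
  rw [h2]
  rfl

theorem st_EZ (K : Type*) [Field K] [CharZero K] (hVR : ST_VR K) (hSG : ST_SG K) : ST_EZ K := by
  intro q t m
  induction m with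
  | zero =>
    intro L G
    have h1 : Vm q t 0 L = 1 := by simp [Vm]
    rw [h1, hall_one, ctL_eq, evz_zero]
    have h2 : (C (G.coeff 0) : MvPolynomial (Fin 0) K) = (G.coeff 0) • monomial 0 1 := by
      rw [MvPolynomial.smul_monomial, smul_eq_mul, mul_one]
      rfl
    rw [h2, map_smul, ctLin_monomial, ct, smul_eq_mul, mul_one]
  | succ m ih =>
    intro L G
    rw [ctL_eq, ctLin_succ, hVR]
    split_ifs with hL
    · rw [map_sum, LinearMap.sum_apply]
      refine Finset.sum_congr rfl fun y _ => ?_
      rw [map_sum, LinearMap.sum_apply]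
      refine Finset.sum_congr rfl fun j _ => ?_
      rw [map_smul, LinearMap.smul_apply, hSG, ih, ctL_eq, finSucc_evz, Polynomial.coeff_map,
        smul_eq_mul]
      rfl
    · rw [map_zero, LinearMap.zero_apply]

end

end TH78
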