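import Pool.Agent.Helper86.TH.Stmts

/-! # Row MB: the eigenbasis of `D_0` satisfies the Pieri rule -/

set_option linter.unusedSectionVars false

namespace TH78

open TH MvPolynomial Finset

noncomputable section

variable {K : Type*} [Field K] [CharZero K]

/-- homogeneous of degree zero means constant -/
theorem WH_zero {F : Sy K} (h : WH 0 F) : F = C (F.coeff 0) := by
  ext s
  rw [MvPolynomial.coeff_C]
  split_ifs with hs
  · rw [hs]
  · by_contra hne
    have h1 := h hne
    rw [Finsupp.weight_apply, Finsupp.sum] at h1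
    apply hs
    ext j
    by_contra hj
    have h2 : j ∈ s.support := by
      rw [Finsupp.mem_support_iff]
      intro h3
      apply hj
      rw [h3]; rfl
    have h3 := (Finset.sum_eq_zero_iff.1 h1) j h2
    rw [smul_eq_mul, Nat.mul_eq_zero] at h3
    rcases h3 with h3 | h3
    · exact (Finsupp.mem_support_iff.1 h2) h3
    · omega

theorem ep_C (u c : K) : ep u (C c : Sy K) = c := by
  rw [ep, ev]
  exact MvPolynomial.aeval_C _ c

theorem basis_P0 {q t : K} {b : Par → Sy K} (h : IsE q t b) : b P0 = 1 := by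
  have h1 := h.hom P0
  rw [card_P0] at h1
  have h2 := WH_zero h1
  have h3 := h.eps P0
  rw [h2, ep_C] at h3
  rw [h2, h3, C_1]

theorem st_MB (K : Type*) [Field K] [CharZero K] (hP1 : ST_P1 K) (hRR : ST_RR K) (hKA : ST_KA K)
    (hKB : ST_KB K) (hKD : ST_KD K) (hPA : ST_PATH K) (hU : ST_U K) (hDX : ST_DX K) :
    ST_MB K := by
  intro q t hg b hb
  obtain ⟨β, hβ, hβ0, hpi⟩ := hP1 q t hg b hb
  have hM : Mj q t 0 ≠ 0 := hg.Mj_ne 0
  -- the path function
  obtain ⟨a, ha0, ha⟩ := hPA (fun μ i => kap q t (card μ + 1) μ i) (by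
    intro μ i j hij hi hj hij' hji'
    change kap q t (card μ + 1) μ i * kap q t (card (up μ i) + 1) (up μ i) j
      = kap q t (card μ + 1) μ j * kap q t (card (up μ j) + 1) (up μ j) i
    rw [card_up hi, card_up hj, hKB q t hg μ (card μ + 1) (card μ + 1 + 1) i (by omega) (by omega) hi,
      hKB q t hg μ (card μ + 1) (card μ + 1 + 1) j (by omega) (by omega) hj]
    exact hKD q t hg μ (card μ + 1 + 1) i j (by omega) hij hi hj hij' hji')
  have ha' : ∀ (μ : Par) (i : ℕ), Adb μ i → a (up μ i) = kap q t (card μ + 1) μ i * a μ := ha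
  set cf : Par → ℕ → K := fun μ i =>
    -(rho q t (card μ + 1) (up μ i) i) / (q * t * zc q t μ i ^ 2) with hcf
  have hpi' : ∀ μ : Par, X 0 * b μ = ∑ i ∈ ads μ, (cf μ i * (β μ / β (up μ i))) • b (up μ i) :=
    fun μ => hpi μ (card μ + 1) (by omega)
  have hrr : ∀ (μ : Par) (i : ℕ), i ∈ ads μ →
      rr q t (card μ + 1) μ i = kap q t (card μ + 1) μ i * cf μ i := by
    intro μ i hi
    exact (hKA q t hg μ (card μ + 1) i (by omega) (mem_ads.1 hi)).1
  set f : Sy K →ₗ[K] K := b.constr K (fun μ => a μ * β μ) with hf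
  have hfb : ∀ μ, f (b μ) = a μ * β μ := fun μ => by rw [hf, Module.Basis.constr_basis]
  -- the value on a combination
  have hval : ∀ (μ : Par) (i : ℕ), i ∈ ads μ →
      cf μ i * (β μ / β (up μ i)) * f (b (up μ i)) = rr q t (card μ + 1) μ i * (a μ * β μ) := by
    intro μ i hi
    rw [hfb, ha' μ i (mem_ads.1 hi), hrr μ i hi]
    have := hβ (up μ i)
    field_simp
  have h1 : ∀ F, f (X 0 * F) = (1 - (0 : K)) * f F := by
    intro F
    rw [sub_zero, one_mul]
    have h2 : f ∘ₗ (mu (X 0) : Module.End K (Sy K)) = f := by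
      refine b.ext fun μ => ?_
      rw [LinearMap.comp_apply, mu_apply, hpi', map_sum, hfb]
      have h3 := (hRR q t hg μ (card μ + 1) (by omega)).2.1
      calc ∑ i ∈ ads μ, f ((cf μ i * (β μ / β (up μ i))) • b (up μ i))
          = ∑ i ∈ ads μ, rr q t (card μ + 1) μ i * (a μ * β μ) := by
            refine Finset.sum_congr rfl fun i hi => ?_
            rw [map_smul, smul_eq_mul, hval μ i hi]
        _ = a μ * β μ := by rw [← Finset.sum_mul, h3, one_mul]
    exact congrArg (fun g => g F) h2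
  have hD1 : ∀ μ : Par, Dk q t 1 (b μ)
      = ∑ i ∈ ads μ, (-(zc q t μ i) * (cf μ i * (β μ / β (up μ i)))) • b (up μ i) := by
    intro μ
    have h3 := congrArg (fun g => g (b μ)) (hDX q t 0)
    simp only [Module.End.mul_apply, LinearMap.add_apply, LinearMap.smul_apply, zero_add,
      mu_apply, hb.eig] at h3
    have h4 : Mj q t 0 • Dk q t 1 (b μ)
        = Dk q t 0 (X 0 * b μ) - X 0 * ((1 - Mj q t 0 * Ps q t μ 0) • b μ) := by
      rw [h3]; ring
    have h5 : Mj q t 0 • Dk q t 1 (b μ) = Mj q t 0 • ∑ i ∈ ads μ,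
        (-(zc q t μ i) * (cf μ i * (β μ / β (up μ i)))) • b (up μ i) := by
      rw [h4, mul_smul_comm, hpi', map_sum, Finset.smul_sum, Finset.smul_sum,
        ← Finset.sum_sub_distrib]
      refine Finset.sum_congr rfl fun i hi => ?_
      rw [map_smul, hb.eig, smul_smul, smul_smul, smul_smul, ← sub_smul,
        Ps_up q t (mem_ads.1 hi)]
      congr 1
      ring
    have h6 := congrArg (fun x => (Mj q t 0)⁻¹ • x) h5
    simpa only [smul_smul, inv_mul_cancel₀ hM, one_smul] using h6
  have h2 : ∀ F, f (Dk q t 1 F) = (0 : K) * f (Dk q t 0 F) - f F := by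
    intro F
    rw [zero_mul, zero_sub]
    have h3 : f ∘ₗ (Dk q t 1 : Module.End K (Sy K)) = -f := by
      refine b.ext fun μ => ?_
      rw [LinearMap.comp_apply, hD1, map_sum, LinearMap.neg_apply, hfb]
      have h4 := (hRR q t hg μ (card μ + 1) (by omega)).2.2 0
      rw [hc_zero] at h4
      calc ∑ i ∈ ads μ, f ((-(zc q t μ i) * (cf μ i * (β μ / β (up μ i)))) • b (up μ i))
          = ∑ i ∈ ads μ, (rr q t (card μ + 1) μ i * zc q t μ i ^ (0 + 1)) * (-(a μ * β μ)) := by
            refine Finset.sum_congr rfl fun i hi => ?_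
            rw [map_smul, smul_eq_mul, mul_assoc, hval μ i hi]
            ring
        _ = -(a μ * β μ) := by rw [← Finset.sum_mul, h4, one_mul]
    exact congrArg (fun g => g F) h3
  have h3 := hU q t hM 0 f h1 h2
  have hab : ∀ μ, a μ * β μ = 1 := by
    intro μ
    rw [← hfb, h3, hb.eps, mul_one, ← basis_P0 hb, hfb, ha0, hβ0, one_mul]
  refine { toIsE := hb, pieri := fun μ => ?_ }
  obtain ⟨_, hs1, hs2⟩ := hRR q t hg μ (card μ + 1) (by omega)
  refine ⟨fun i => rr q t (card μ + 1) μ i, ?_, hs1, hs2⟩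
  rw [hpi']
  refine Finset.sum_congr rfl fun i hi => ?_
  congr 1
  change _ = rr q t (card μ + 1) μ i
  rw [hrr μ i hi]
  have h4 := hab μ
  have h5 := hab (up μ i)
  rw [ha' μ i (mem_ads.1 hi)] at h5
  have h6 := hβ (up μ i)
  have h7 : β μ / β (up μ i) = kap q t (card μ + 1) μ i := by
    rw [div_eq_iff h6]
    calc β μ = β μ * (kap q t (card μ + 1) μ i * a μ * β (up μ i)) := by rw [h5, mul_one]
      _ = (a μ * β μ) * (kap q t (card μ + 1) μ i * β (up μ i)) := by ring
      _ = _ := by rw [h4, one_mul]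
  rw [h7, mul_comm]

end

end TH78
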